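import Pool.Agent.helper92.ISA.Spec

/-!
# Row isa:ODD (MP_069684_lc): the critical probability of parity
-/

set_option autoImplicit false

open Filter Topology

namespace Pool.Agent.ISA

open Pool.Agent.PB Pool.Agent.ISO

lemma ODD_count {R : ℕ} (T : Finset (Fin R)) :
    (Finset.univ.filter fun K : Finset (Fin R) => (T ∩ K).card = 1 ∧ K.card = 2).card ≤ T.card * (R - T.card) := by
  have hsub : (Finset.univ.filter fun K : Finset (Fin R) => (T ∩ K).card = 1 ∧ K.card = 2) ⊆
      (T ×ˢ Tᶜ).image fun p : Fin R × Fin R => ({p.1, p.2} : Finset (Fin R)) := by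
    intro K hK
    simp only [Finset.mem_filter, Finset.mem_univ, true_and] at hK
    obtain ⟨h1, h2⟩ := hK
    obtain ⟨a, ha⟩ := Finset.card_eq_one.mp h1
    have haT : a ∈ T ∩ K := by rw [ha]; exact Finset.mem_singleton_self a
    rw [Finset.mem_inter] at haT
    have h3 : (K.erase a).card = 1 := by rw [Finset.card_erase_of_mem haT.2, h2]
    obtain ⟨b, hb⟩ := Finset.card_eq_one.mp h3
    have hbK : b ∈ K.erase a := by rw [hb]; exact Finset.mem_singleton_self b
    rw [Finset.mem_erase] at hbK
    have hbT : b ∉ T := by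
      intro hbT
      have : b ∈ T ∩ K := Finset.mem_inter.mpr ⟨hbT, hbK.2⟩
      rw [ha, Finset.mem_singleton] at this
      exact hbK.1 this
    rw [Finset.mem_image]
    refine ⟨(a, b), ?_, ?_⟩
    · rw [Finset.mem_product]
      exact ⟨haT.1, Finset.mem_compl.mpr hbT⟩
    · show ({a, b} : Finset (Fin R)) = K
      rw [← hb]
      exact Finset.insert_erase haT.2
  calc _ ≤ ((T ×ˢ Tᶜ).image fun p : Fin R × Fin R => ({p.1, p.2} : Finset (Fin R))).card := Finset.card_le_card hsub
    _ ≤ (T ×ˢ Tᶜ).card := Finset.card_image_le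
    _ = T.card * (R - T.card) := by rw [Finset.card_product, Finset.card_compl, Fintype.card_fin]

lemma ODD_upper (R m : ℕ) (hR : 2 ≤ R) (hm : 2 ≤ m) :
    ∃ μ : Finset (Fin R) → ℝ, Strat R m μ ∧ Val {c | Odd c} ((R : ℝ) / (2 * (R - 1))) μ := by
  have hR' : (2 : ℝ) ≤ R := by exact_mod_cast hR
  have hch : ((R.choose 2 : ℕ) : ℝ) = R * (R - 1) / 2 := Nat.cast_choose_two ℝ R
  have hpos : (0 : ℝ) < R.choose 2 := by
    rw [hch]
    have : (0 : ℝ) < R * (R - 1) := mul_pos (by linarith) (by linarith)
    linarith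
  refine ⟨fun K => if K.card = 2 then 1 / (R.choose 2 : ℝ) else 0, ⟨?_, ?_, ?_⟩, ?_⟩
  · intro K
    show (0 : ℝ) ≤ if K.card = 2 then 1 / (R.choose 2 : ℝ) else 0
    split_ifs
    · positivity
    · exact le_refl _
  · intro K hK
    have : K.card = 2 := by
      by_contra h
      exact hK (if_neg h)
    omega
  · rw [← Finset.sum_filter, Finset.sum_const, nsmul_eq_mul]
    have : (Finset.univ.filter fun K : Finset (Fin R) => K.card = 2).card = R.choose 2 := by
      have h1 : (Finset.univ.filter fun K : Finset (Fin R) => K.card = 2) = Finset.powersetCard 2 Finset.univ := by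
        ext K
        simp [Finset.mem_powersetCard]
      rw [h1, Finset.card_powersetCard, Finset.card_univ, Fintype.card_fin]
    rw [this]
    field_simp
  · intro T
    rw [Finset.sum_filter]
    refine le_trans (le_of_eq (b := ((Finset.univ.filter fun K : Finset (Fin R) => (T ∩ K).card = 1 ∧ K.card = 2).card : ℝ) * (1 / (R.choose 2 : ℝ))) ?_) ?_
    · rw [← nsmul_eq_mul, ← Finset.sum_const, Finset.sum_filter]
      refine Finset.sum_congr rfl fun K _ => ?_
      have hle : (T ∩ K).card ≤ K.card := Finset.card_le_card Finset.inter_subset_right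
      by_cases h2 : K.card = 2
      · by_cases h3 : (T ∩ K).card = 1
        · have h4 : (T ∩ K).card ∈ {c : ℕ | Odd c} := by
            rw [h3]
            exact odd_one
          rw [if_pos h4, if_pos h2, if_pos ⟨h3, h2⟩]
        · have h4 : ¬ (T ∩ K).card ∈ {c : ℕ | Odd c} := by
            intro h5
            have h6 : Odd (T ∩ K).card := h5
            obtain ⟨j, hj⟩ := h6
            omega
          rw [if_neg h4, if_neg fun h5 => h3 h5.1]
      · rw [if_neg h2, ite_self, if_neg fun h5 => h2 h5.2]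
    have hT : T.card ≤ R := by
      have := Finset.card_le_univ T
      rwa [Fintype.card_fin] at this
    have h2 : ((Finset.univ.filter fun K : Finset (Fin R) => (T ∩ K).card = 1 ∧ K.card = 2).card : ℝ) ≤ (R : ℝ) ^ 2 / 4 := by
      have h3 : ((Finset.univ.filter fun K : Finset (Fin R) => (T ∩ K).card = 1 ∧ K.card = 2).card : ℝ) ≤
          (T.card : ℝ) * ((R : ℝ) - T.card) := by
        have := ODD_count T
        have h4 : ((Finset.univ.filter fun K : Finset (Fin R) => (T ∩ K).card = 1 ∧ K.card = 2).card : ℝ) ≤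
            ((T.card * (R - T.card) : ℕ) : ℝ) := by exact_mod_cast this
        rwa [Nat.cast_mul, Nat.cast_sub hT] at h4
      nlinarith [sq_nonneg ((R : ℝ) - 2 * T.card)]
    have h5 : (R : ℝ) / (2 * (R - 1)) = (R : ℝ) ^ 2 / 4 * (1 / (R.choose 2 : ℝ)) := by
      rw [hch]
      have ha : (R : ℝ) ≠ 0 := by linarith
      have hb : (R : ℝ) - 1 ≠ 0 := by linarith
      field_simp
      norm_num
    rw [h5]
    exact mul_le_mul_of_nonneg_right h2 (by positivity)

lemma ODD_binom (t : ℕ) (ht : 1 ≤ t) :
    ∑ r ∈ Finset.range (t + 1), (if Odd r then (t.choose r : ℝ) else 0) = (2 : ℝ) ^ t / 2 := by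
  have h1 : ∑ r ∈ Finset.range (t + 1), (t.choose r : ℝ) = (2 : ℝ) ^ t := by
    have := Nat.sum_range_choose t
    exact_mod_cast this
  have h2 : ∑ r ∈ Finset.range (t + 1), ((-1 : ℝ) ^ r * (t.choose r : ℝ)) = 0 := by
    have h3 := Int.alternating_sum_range_choose (n := t)
    rw [if_neg (by omega)] at h3
    have h4 : ((∑ r ∈ Finset.range (t + 1), ((-1 : ℤ) ^ r * (t.choose r : ℤ)) : ℤ) : ℝ) = 0 := by
      rw [h3]
      norm_num
    push_cast at h4
    exact h4
  have h5 : ∑ r ∈ Finset.range (t + 1), (if Odd r then (t.choose r : ℝ) else 0) =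
      ∑ r ∈ Finset.range (t + 1), ((t.choose r : ℝ) - (-1 : ℝ) ^ r * (t.choose r : ℝ)) / 2 := by
    refine Finset.sum_congr rfl fun r _ => ?_
    by_cases h : Odd r
    · rw [if_pos h, h.neg_one_pow]
      ring
    · rw [if_neg h, (Nat.not_odd_iff_even.1 h).neg_one_pow]
      ring
  rw [h5, ← Finset.sum_div, Finset.sum_sub_distrib, h1, h2, sub_zero]

lemma ODD_lower (hPRM : ISO.PRM_stmt) (R m : ℕ) (q : ℝ) (μ : Finset (Fin R) → ℝ) (hS : Strat R m μ) (hV : Val {c | Odd c} q μ) :
    1 / 2 ≤ q := by
  classical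
  set W : Finset (Fin R) → ℝ := fun T => (1 / 2 : ℝ) ^ T.card * (1 - 1 / 2) ^ (R - T.card) with hW
  have hW0 : ∀ T, 0 ≤ W T := by
    intro T
    show 0 ≤ (1 / 2 : ℝ) ^ T.card * (1 - 1 / 2) ^ (R - T.card)
    exact mul_nonneg (pow_nonneg (by norm_num) _) (pow_nonneg (by norm_num) _)
  have hW1 : ∑ T, W T = 1 := (hPRM R ∅ (1 / 2)).1
  have hV' : ∀ T : Finset (Fin R), (∑ K, if Odd (T ∩ K).card then μ K else 0) ≤ q := by
    intro T
    have h1 := hV T
    rw [Finset.sum_filter] at h1
    refine le_trans (le_of_eq ?_) h1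
    refine Finset.sum_congr rfl fun K _ => ?_
    by_cases h : Odd (T ∩ K).card
    · rw [if_pos h, if_pos (show (T ∩ K).card ∈ {c : ℕ | Odd c} from h)]
    · rw [if_neg h, if_neg (show ¬ (T ∩ K).card ∈ {c : ℕ | Odd c} from h)]
  have h1 : ∑ T, W T * (∑ K, if Odd (T ∩ K).card then μ K else 0) ≤ q := by
    calc ∑ T, W T * (∑ K, if Odd (T ∩ K).card then μ K else 0) ≤ ∑ T, W T * q :=
          Finset.sum_le_sum fun T _ => mul_le_mul_of_nonneg_left (hV' T) (hW0 T)
      _ = q := by rw [← Finset.sum_mul, hW1, one_mul]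
  have h2 : ∑ T, W T * (∑ K, if Odd (T ∩ K).card then μ K else 0) = ∑ K, μ K * ∑ T, (if Odd (T ∩ K).card then W T else 0) := by
    calc ∑ T, W T * (∑ K, if Odd (T ∩ K).card then μ K else 0) = ∑ T, ∑ K, (if Odd (T ∩ K).card then W T * μ K else 0) := by
          refine Finset.sum_congr rfl fun T _ => ?_
          rw [Finset.mul_sum]
          refine Finset.sum_congr rfl fun K _ => ?_
          by_cases h : Odd (T ∩ K).card
          · rw [if_pos h, if_pos h]
          · rw [if_neg h, if_neg h, mul_zero]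
      _ = ∑ K, ∑ T, (if Odd (T ∩ K).card then W T * μ K else 0) := Finset.sum_comm
      _ = ∑ K, μ K * ∑ T, (if Odd (T ∩ K).card then W T else 0) := by
          refine Finset.sum_congr rfl fun K _ => ?_
          rw [Finset.mul_sum]
          refine Finset.sum_congr rfl fun T _ => ?_
          by_cases h : Odd (T ∩ K).card
          · rw [if_pos h, if_pos h, mul_comm]
          · rw [if_neg h, if_neg h, mul_zero]
  have h3 : ∀ K, μ K * ∑ T, (if Odd (T ∩ K).card then W T else 0) = μ K * (1 / 2) := by
    intro K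
    by_cases h0 : μ K = 0
    · rw [h0, zero_mul, zero_mul]
    · have hK := hS.supp K h0
      have h5 : (∑ T : Finset (Fin R), if Odd (T ∩ K).card then W T else 0) =
          ∑ r ∈ Finset.range (K.card + 1), (if Odd r then ∑ T : Finset (Fin R), (if (T ∩ K).card = r then W T else 0) else 0) := by
        have h6 : ∀ r ∈ Finset.range (K.card + 1), (if Odd r then ∑ T : Finset (Fin R), (if (T ∩ K).card = r then W T else 0) else 0) =
            ∑ T : Finset (Fin R), (if (T ∩ K).card = r then (if Odd r then W T else 0) else 0) := by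
          intro r _
          by_cases h : Odd r
          · rw [if_pos h]
            refine Finset.sum_congr rfl fun T _ => ?_
            rw [if_pos h]
          · rw [if_neg h]
            symm
            refine Finset.sum_eq_zero fun T _ => ?_
            rw [if_neg h, ite_self]
        rw [Finset.sum_congr rfl h6, Finset.sum_comm]
        refine Finset.sum_congr rfl fun T _ => ?_
        rw [Finset.sum_ite_eq]
        have h7 : (T ∩ K).card ∈ Finset.range (K.card + 1) :=
          Finset.mem_range.2 (Nat.lt_succ_of_le (Finset.card_le_card Finset.inter_subset_right))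
        rw [if_pos h7]
      have h8 : ∀ r ∈ Finset.range (K.card + 1), (if Odd r then ∑ T : Finset (Fin R), (if (T ∩ K).card = r then W T else 0) else 0) =
          (if Odd r then (K.card.choose r : ℝ) else 0) * (1 / 2) ^ K.card := by
        intro r hr
        by_cases h : Odd r
        · rw [if_pos h, if_pos h]
          have h9 := (hPRM R K (1 / 2)).2 r
          refine Eq.trans h9 ?_
          have h10 : r ≤ K.card := Nat.lt_succ_iff.1 (Finset.mem_range.1 hr)
          have h11 : (1 / 2 : ℝ) ^ K.card = (1 / 2) ^ r * (1 / 2) ^ (K.card - r) := by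
            rw [← pow_add]
            congr 1
            omega
          rw [h11]
          norm_num
          ring
        · rw [if_neg h, if_neg h, zero_mul]
      rw [h5, Finset.sum_congr rfl h8, ← Finset.sum_mul, ODD_binom K.card hK.1]
      have h12 : (2 : ℝ) ^ K.card / 2 * (1 / 2) ^ K.card = 1 / 2 := by
        rw [div_pow, one_pow]
        field_simp
      rw [h12]
  have h7 : ∑ K, μ K * ∑ T, (if Odd (T ∩ K).card then W T else 0) = 1 / 2 := by
    rw [Finset.sum_congr rfl fun K _ => h3 K, ← Finset.sum_mul, hS.sum, one_mul]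
  rw [h2, h7] at h1
  exact h1

theorem ODD_proof (hPRM : ISO.PRM_stmt) (hTHA : THA_stmt) : ODD_stmt := by
  intro m hm
  obtain ⟨hA, hB, -⟩ := hTHA m {c | Odd c} (by omega) odd_one
  refine le_antisymm ?_ ?_
  · refine le_of_forall_pos_le_add fun e he => ?_
    obtain ⟨N, hN⟩ := exists_nat_gt (1 / (2 * e))
    obtain ⟨μ, hS, hV⟩ := ODD_upper (N + 2) m (by omega) hm
    refine (hA _ _ μ hS hV).trans ?_
    have hN0 : (0 : ℝ) ≤ N := Nat.cast_nonneg N
    have h1 : ((N + 2 : ℕ) : ℝ) = N + 2 := by push_cast; ring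
    rw [h1]
    have h2 : (0 : ℝ) < 2 * ((N : ℝ) + 2 - 1) := by linarith
    rw [div_le_iff₀ h2]
    have h3 : 1 < N * (2 * e) := by
      rwa [div_lt_iff₀ (by linarith)] at hN
    nlinarith
  · by_contra h
    rw [not_le] at h
    obtain ⟨q, hq1, hq2⟩ := exists_between h
    obtain ⟨R, μ, hS, hV⟩ := hB q hq1
    have := ODD_lower hPRM R m q μ hS hV
    linarith

end Pool.Agent.ISA
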